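import Pool.Agent.Lib.MP_4287a9_ag.WMain
import Pool.Agent.Lib.MP_4287a9_ag.WRed

/-!
The Frobenius volumes of the reductions modulo `p` of a klt singularity are bounded below and above
by its normalized volume, up to constants that depend only on the dimension.
The other definitions are in `Pool/Agent/Lib/MP_4287a9_ag/Stmt.lean` and `St2.lean`.
-/

open scoped TensorProduct ENNReal NNReal
open Pool.Agent.Lib.MP_4287a9_ag

namespace Pool.Agent.Results.MP_4287a9_ag.Full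

/-- The fibre over `κ` has a point over `𝔫`. Each such point `m` is closed, its local ring is a
normal domain, is strongly F-regular for the reduction of the boundary, and has Frobenius volume
between `v` and `w`. -/
def Fib (B : Type) {T : Type} [CommRing B] [CommRing T] [Algebra B T] (κ : Type) [Field κ]
    [Algebra B κ] (n : ℕ) (𝔫 𝔡 : Ideal T) (r : ℕ) (v w : ℝ≥0) : Prop :=
  (∃ m : Ideal (κ ⊗[B] T), m.IsPrime ∧ ext B κ 𝔫 ≤ m) ∧
  ∀ (m : Ideal (κ ⊗[B] T)) [m.IsPrime], ext B κ 𝔫 ≤ m → m.IsMaximal ∧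
    IsDomain (Localization.AtPrime m) ∧ IsIntegrallyClosed (Localization.AtPrime m) ∧
    SFR ((ext B κ 𝔡).map (algebraMap (κ ⊗[B] T) (Localization.AtPrime m))) r ⊤ 0 ∧
    (v : ℝ≥0∞) ≤ Fvol n ((ext B κ 𝔡).map (algebraMap (κ ⊗[B] T) (Localization.AtPrime m))) r ∧
    Fvol n ((ext B κ 𝔡).map (algebraMap (κ ⊗[B] T) (Localization.AtPrime m))) r ≤ (w : ℝ≥0∞)

/-- Every large prime is the residue characteristic of a closed point of `Spec B` with `b ≠ 0`,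
and `Fib` holds at all closed points with `b ≠ 0`. -/
def Open {B T : Type} [CommRing B] [CommRing T] [Algebra B T] (b : B) (n : ℕ) (𝔫 𝔡 : Ideal T)
    (r : ℕ) (v w : ℝ≥0) : Prop :=
  (∃ p₀ : ℕ, ∀ p : ℕ, p₀ ≤ p → p.Prime → ∃ (κ : Type) (_ : Field κ) (_ : Algebra B κ),
    Function.Surjective (algebraMap B κ) ∧ algebraMap B κ b ≠ 0 ∧ ringChar κ = p) ∧
  ∀ (κ : Type) [Field κ] [Algebra B κ], Function.Surjective (algebraMap B κ) →
    algebraMap B κ b ≠ 0 → Fib B κ n 𝔫 𝔡 r v w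

theorem result (n : ℕ) (hn : 1 ≤ n) (c C : ℝ≥0) (hc : (n : ℝ≥0) ^ (2 * n) * c < 1)
    (hC : (n : ℝ≥0) ^ n < C) (k B T : Type) [Field k] [CharZero k] [CommRing B]
    [Algebra.FiniteType ℤ B] [Algebra B k] (hB : Function.Injective (algebraMap B k)) [CommRing T]
    [Algebra B T] [Algebra.FiniteType B T] [IsDomain (k ⊗[B] T)] [IsIntegrallyClosed (k ⊗[B] T)]
    (hdim : Algebra.trdeg k (k ⊗[B] T) = n) (𝔫 : Ideal T) (h𝔫 : (ext B k 𝔫).IsMaximal)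
    (𝔡 : Ideal T) (r : ℕ) (hr : 0 < r) (h𝔡 : ext B k 𝔡 ≠ ⊥)
    (hklt : KltV k n (ext B k 𝔫) (ext B k 𝔡) r ⊤ 0) :
    ∃ V : ℝ≥0, 0 < V ∧ nvolV k n (ext B k 𝔫) (ext B k 𝔡) r = V ∧
      ∃ b : B, b ≠ 0 ∧ Open b n 𝔫 𝔡 r (c * V) (C * V) := by
  obtain ⟨h0, h1, H⟩ := mainW hB hn hdim 𝔫 h𝔫 hr h𝔡 hklt
  obtain ⟨V, hV⟩ : ∃ V : ℝ≥0, (V : ℝ≥0∞) = nvolV k n (ext B k 𝔫) (ext B k 𝔡) r :=
    ⟨_, ENNReal.coe_toNNReal h1.ne⟩
  rw [← hV] at h0 H
  have hV0 : 0 < V := ENNReal.coe_pos.1 h0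
  have hn0 : (0 : ℝ≥0) < (n : ℝ≥0) ^ n := pow_pos (by exact_mod_cast hn) n
  obtain ⟨b, hb, Hb⟩ := H (c * V) ((C / (n : ℝ≥0) ^ n * V : ℝ≥0) : ℝ≥0∞)
    (by
      have : (n : ℝ≥0) ^ (2 * n) * (c * V) < V := by
        rw [← mul_assoc]
        exact mul_lt_of_lt_one_left hV0 hc
      exact_mod_cast this)
    (ENNReal.coe_lt_coe.2 (lt_mul_of_one_lt_left hV0 ((one_lt_div hn0).2 hC)))
  refine ⟨V, hV0, hV.symm, b, hb, ?_, fun κ _ _ hs hb' => ?_⟩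
  · obtain ⟨p₀, h2⟩ := exists_red hB h𝔫.ne_top hb
    refine ⟨p₀, fun p hp hp' => ?_⟩
    obtain ⟨κ, _, _, h3, h4, h5, -⟩ := h2 p hp hp'
    exact ⟨κ, inferInstance, inferInstance, h3, h4, h5⟩
  · have : Algebra.FiniteType B κ := Algebra.FiniteType.of_surjective (Algebra.ofId B κ) hs
    have : Algebra.FiniteType ℤ κ := Algebra.FiniteType.trans (S := B) inferInstance this
    have := finite_of_finiteType_int κ
    obtain ⟨h2, h3⟩ := Hb κ hb'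
    refine ⟨h2, fun m _ hm => ?_⟩
    obtain ⟨k1, k2, k3, k4, k5, k6⟩ := h3 m hm
    refine ⟨k1, k2, k3, k4, k5, k6.trans (le_of_eq ?_)⟩
    have h4 : (n : ℝ≥0) ^ n * (C / (n : ℝ≥0) ^ n * V) = C * V := by
      rw [← mul_assoc, mul_div_cancel₀ _ hn0.ne']
    exact_mod_cast h4

end Pool.Agent.Results.MP_4287a9_ag.Full
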