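import Pool.Agent.Lib.MP_4287a9_ag.Main3

/-!
Lower bound for the Frobenius volume of the reductions of a klt singularity in terms of its
normalized volume, with the constant `n ^ (-n)`.
The other definitions are in `Pool/Agent/Lib/MP_4287a9_ag/Stmt.lean`.
-/

open scoped TensorProduct ENNReal NNReal
open Pool.Agent.Lib.MP_4287a9_ag

namespace Pool.Agent.Results.MP_4287a9_ag.LowerBound

/-- The local ring of the fibre over `κ` at the point `σ` is a normal domain, is strongly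
F-regular for the reduction of the boundary, and has Frobenius volume at least `c`. -/
def Fib {B T : Type} [CommRing B] [CommRing T] [Algebra B T] (σ : T →ₐ[B] B) (κ : Type)
    [Field κ] [Algebra B κ] (n : ℕ) (𝔡 : Ideal T) (r : ℕ) (c : ℝ≥0) : Prop :=
  IsDomain (Loc σ κ) ∧ IsIntegrallyClosed (Loc σ κ) ∧
    SFR ((ext B κ 𝔡).map (algebraMap (κ ⊗[B] T) (Loc σ κ))) r ⊤ 0 ∧
    (c : ℝ≥0∞) ≤ Fvol n ((ext B κ 𝔡).map (algebraMap (κ ⊗[B] T) (Loc σ κ))) r

theorem result (k B T : Type) [Field k] [IsAlgClosed k] [CharZero k] [Uncountable k]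
    [CommRing B] [Algebra.FiniteType ℤ B] [Algebra B k]
    (hB : Function.Injective (algebraMap B k)) [CommRing T] [Algebra B T]
    [Algebra.FiniteType B T] (σ : T →ₐ[B] B) [IsDomain (k ⊗[B] T)]
    [IsIntegrallyClosed (k ⊗[B] T)] (n : ℕ) (hn : 1 ≤ n)
    (hdim : Algebra.trdeg k (k ⊗[B] T) = n) (𝔡 : Ideal T) (r : ℕ) (hr : 0 < r)
    (h𝔡 : ext B k 𝔡 ≠ ⊥) (hklt : Klt k n (pt σ k) (ext B k 𝔡) r ⊤ 0) (c : ℝ≥0)
    (hc : (n : ℝ≥0∞) ^ n * c < nvol k n (pt σ k) (ext B k 𝔡) r) :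
    ∃ b : B, b ≠ 0 ∧ ∀ (κ : Type) [Field κ] [Algebra B κ],
      Function.Surjective (algebraMap B κ) → algebraMap B κ b ≠ 0 →
        Fib σ κ n 𝔡 r c :=
  main hB σ hn hdim hr h𝔡 hklt hc

end Pool.Agent.Results.MP_4287a9_ag.LowerBound
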